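import Pool.Agent.H15.G.R_seed8.TH978.S13.Defs

/-!
# Uniform SHGH for 13 points, STEP 3: the points on `Y = 1`
-/

set_option autoImplicit false

namespace Pool.Agent.TH978.S13

open Finset Pool.Agent.TH176.Nag

/-- a descending product vanishes at a small natural number -/
theorem dsc_eq_zero_of_lt {k : ℕ} {j : ℤ} (h0 : 0 ≤ j) (hk : j < k) : dsc k (j : ℚ) = 0 := by
  unfold dsc
  obtain ⟨n, hn⟩ := Int.eq_ofNat_of_zero_le h0
  refine prod_eq_zero (mem_range.2 (show n < k by omega)) ?_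
  rw [hn]
  simp

theorem line_tau {ι : Type} [Fintype ι] (x : ι → ℚ) (hx : Function.Injective x) (hx0 : ∀ i, x i ≠ 0)
    {h : (ℤ × ℤ) →₀ ℚ} {m : ℕ} (hL : ∀ i, LM h (x i) 1 m) {c : ℤ} (hc : ∀ p ∈ h.support, c ≤ p.1)
    (hpos : ∀ p ∈ h.support, 0 ≤ p.2 - p.1 + 1) {k : ℕ} {β : ℝ}
    (hβ : ∀ p ∈ h.support, (k : ℤ) ≤ p.2 - p.1 + 1 → (p.1 : ℝ) ≤ β)
    (hlen : β - c < (Fintype.card ι : ℝ) * ((m - k : ℕ) : ℝ)) :
    tau h c (fun b => dsc k (b - c + 1)) = 0 := by
  classical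
  let H : ℤ →₀ ℚ := ∑ p ∈ h.support,
    Finsupp.single p.1 (h p * dsc k ((p.2 : ℚ) - (p.1 : ℚ) + 1))
  have hHa : ∀ a : ℤ, H a = ∑ p ∈ h.support,
      if p.1 = a then h p * dsc k ((p.2 : ℚ) - (p.1 : ℚ) + 1) else 0 := by
    intro a
    simp only [H, Finsupp.coe_finsetSum, Finset.sum_apply, Finsupp.single_apply]
  have hH0 : H = 0 := by
    refine Pool.Agent.TH819.NagA.one_var x hx hx0 (fun _ => m - k) H (c : ℝ) β ?_ ?_ ?_
    · intro a ha
      have h1 : H a ≠ 0 := Finsupp.mem_support_iff.1 ha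
      rw [hHa] at h1
      obtain ⟨p, hp, hp1⟩ := exists_ne_zero_of_sum_ne_zero h1
      have hpa : p.1 = a := by
        by_contra hne
        exact hp1 (if_neg hne)
      rw [if_pos hpa] at hp1
      have hd : dsc k ((p.2 : ℚ) - (p.1 : ℚ) + 1) ≠ 0 := right_ne_zero_of_mul hp1
      have hk : (k : ℤ) ≤ p.2 - p.1 + 1 := by
        by_contra hlt
        apply hd
        have := dsc_eq_zero_of_lt (k := k) (hpos p hp) (not_le.1 hlt)
        push_cast at this
        exact this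
      rw [← hpa]
      exact ⟨by exact_mod_cast hc p hp, hβ p hp hk⟩
    · rw [sum_const, card_univ, nsmul_eq_mul]
      exact hlen
    · intro i e he
      have hP := PF_comp_aff (PF_desc (K := ℚ) (a := e) (b := k) (w := m) (by omega)) 0 1 0 1 (-1) 1
      have h2 := hL i _ hP
      have h3 : (H.sum fun a v => v * ((a : ℚ) ^ e * x i ^ a)) =
          ∑ p ∈ h.support, h p * dsc k ((p.2 : ℚ) - (p.1 : ℚ) + 1) *
            ((p.1 : ℚ) ^ e * x i ^ p.1) := by
        simp only [H]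
        rw [← Finsupp.sum_finsetSum_index (h := fun (a : ℤ) (v : ℚ) => v * ((a : ℚ) ^ e * x i ^ a))
          (by intro a; simp) (by intro a b1 b2; ring)]
        refine sum_congr rfl fun p _ => ?_
        rw [Finsupp.sum_single_index (by simp)]
      rw [h3, ← h2]
      unfold pr Finsupp.sum
      refine sum_congr rfl fun p _ => ?_
      unfold dsc
      show h p * (∏ t ∈ range k, ((p.2 : ℚ) - (p.1 : ℚ) + 1 - (t : ℚ))) *
          ((p.1 : ℚ) ^ e * x i ^ p.1) =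
        h p * ((0 + 1 * (p.1 : ℚ) + 0 * (p.2 : ℚ)) ^ e *
          ∏ t ∈ range k, ((1 + (-1) * (p.1 : ℚ) + 1 * (p.2 : ℚ)) - (t : ℚ))) *
          (x i ^ p.1 * 1 ^ p.2)
      have e1 : ∏ t ∈ range k, ((1 + (-1) * (p.1 : ℚ) + 1 * (p.2 : ℚ)) - (t : ℚ)) =
          ∏ t ∈ range k, ((p.2 : ℚ) - (p.1 : ℚ) + 1 - (t : ℚ)) :=
        prod_congr rfl fun t _ => by ring
      rw [e1, one_zpow]
      ring
  have h4 : tau h c (fun b => dsc k (b - c + 1)) = H c := by
    rw [hHa]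
    unfold tau Finsupp.sum
    refine sum_congr rfl fun p _ => ?_
    show (if p.1 = c then h p * dsc k ((p.2 : ℚ) - (c : ℚ) + 1) else 0) = _
    by_cases hpc : p.1 = c
    · rw [if_pos hpc, if_pos hpc, hpc]
    · rw [if_neg hpc, if_neg hpc]
  rw [h4, hH0]
  rfl

end Pool.Agent.TH978.S13
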